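import Mathlib
import Pool.Agent.H.MP_7d34d8_co.Top

set_option autoImplicit false

namespace Pool.Agent.Results.MP_7d34d8_co.Q2

open Finset SimpleGraph

/-- `G` has a Hamiltonian path -/
def Traceable {W : Type} [DecidableEq W] (G : SimpleGraph W) : Prop :=
  ∃ (u v : W) (p : G.Walk u v), p.IsHamiltonian

/-- the set is empty or induces a connected subgraph -/
def ConnSet {W : Type} (G : SimpleGraph W) (B : Finset W) : Prop :=
  B = ∅ ∨ (G.induce (B : Set W)).Connected

/-- a connected allocation that is EF1-outer for the common additive valuation given by `w` -/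
def GoodAlloc {W : Type} [DecidableEq W] (G : SimpleGraph W) (w : W → ℝ) {n : ℕ}
    (A : Fin n → Finset W) : Prop :=
  (∀ i j, i ≠ j → Disjoint (A i) (A j)) ∧ (∀ v, ∃ i, v ∈ A i) ∧ (∀ i, ConnSet G (A i)) ∧
    ∀ i j, ∑ v ∈ A j, w v ≤ ∑ v ∈ A i, w v ∨
      ∃ o ∈ A j, ConnSet G ((A j).erase o) ∧ ∑ v ∈ (A j).erase o, w v ≤ ∑ v ∈ A i, w v

open Pool.Agent.H.MP_7d34d8_co

lemma cs_of {B : Finset V} (h : Cn B) : ConnSet G B := by
  rcases B.eq_empty_or_nonempty with rfl | ⟨x, hx⟩
  · exact Or.inl rfl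
  · exact Or.inr (@Connected.mk _ _ h ⟨⟨x, hx⟩⟩)

lemma cn_map (e : V ≃ V) (he : ∀ a b, G.Adj a b → G.Adj (e a) (e b)) {B : Finset V} (h : Cn B) :
    Cn (B.map e.toEmbedding) := by
  refine Preconnected.map (G := G.induce (B : Set V))
    ⟨fun x => ⟨e x.1, mem_coe.2 (mem_map_of_mem _ x.2)⟩, fun h => he _ _ h⟩ ?_ h
  rintro ⟨y, hy⟩
  obtain ⟨x, hx, rfl⟩ := mem_map.1 (mem_coe.1 hy)
  exact ⟨⟨x, hx⟩, rfl⟩

lemma ex_map (e : V ≃ V) (he : ∀ a b, G.Adj a b → G.Adj (e a) (e b)) {a : ℕ} {w : V → ℝ}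
    (h : Ex a (fun v => w (e v))) : Ex a w := by
  obtain ⟨l, h1, h2, h3, h4⟩ := h
  refine ⟨l.map fun B => B.map e.toEmbedding, by simp [h1], ?_, fun v => ?_, fun B hB => ?_⟩
  · rw [List.pairwise_map]
    exact h2.imp fun h => (disjoint_map _).2 h
  · obtain ⟨B, hB, hv⟩ := h3 (e.symm v)
    exact ⟨_, List.mem_map_of_mem hB, mem_map.2 ⟨_, hv, by simp⟩⟩
  · obtain ⟨B, hB', rfl⟩ := List.mem_map.1 hB
    obtain ⟨g1, o, g2, g3, g4⟩ := h4 B hB'
    refine ⟨cn_map e he g1, e o, mem_map_of_mem e.toEmbedding g2, ?_, fun C hC => ?_⟩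
    · have := cn_map e he g3
      rwa [map_erase] at this
    · obtain ⟨C, hC', rfl⟩ := List.mem_map.1 hC
      have := g4 C hC'
      rw [show e o = e.toEmbedding o from rfl, ← map_erase, sum_map, sum_map]
      exact this

def e1 : V ≃ V := Equiv.swap 0 1 * Equiv.swap 8 9
def e2 : V ≃ V := Equiv.swap 2 3 * Equiv.swap 5 6

lemma ex_all {a : ℕ} (h : Ok a (push (push 0 1 2) 4 8)) (w : V → ℝ) (hw : ∀ v, 0 ≤ w v) :
    Ex a w := by
  have k : ∀ w : V → ℝ, (∀ v, 0 ≤ w v) → w 1 ≤ w 0 → w 3 ≤ w 2 → Ex a w := fun w hw h1 h2 => by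
    refine h w hw (sat_push (sat_push (fun k => ?_) (by decide) (by decide) ?_) (by decide)
      (by decide) ?_)
    · simpa [look] using good_zero w 1 hw
    · rwa [show S 2 = {1} from S_pow 1, show S 1 = {0} from S_pow 0, sum_singleton, sum_singleton]
    · rwa [show S 8 = {3} from S_pow 3, show S 4 = {2} from S_pow 2, sum_singleton, sum_singleton]
  have k2 : ∀ w : V → ℝ, (∀ v, 0 ≤ w v) → w 1 ≤ w 0 → Ex a w := fun w hw h1 => by
    rcases le_total (w 3) (w 2) with h2 | h2
    · exact k w hw h1 h2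
    · exact ex_map e2 (by decide) (k _ (fun v => hw _) h1 h2)
  rcases le_total (w 1) (w 0) with h1 | h1
  · exact k2 w hw h1
  · exact ex_map e1 (by decide) (k2 _ (fun v => hw _) h1)

lemma of_ex {n : ℕ} {w : V → ℝ} (h : Ex n w) : ∃ A : Fin n → Finset V, GoodAlloc G w A := by
  obtain ⟨l, rfl, h2, h3, h4⟩ := h
  refine ⟨l.get, fun i j hij => ?_, fun v => ?_, fun i => cs_of (h4 _ (l.get_mem i)).1,
    fun i j => Or.inr ?_⟩
  · rw [List.pairwise_iff_get] at h2
    rcases lt_or_gt_of_ne hij with h | h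
    · exact h2 i j h
    · exact (h2 j i h).symm
  · obtain ⟨B, hB, hv⟩ := h3 v
    obtain ⟨i, rfl⟩ := List.get_of_mem hB
    exact ⟨i, hv⟩
  · obtain ⟨o, g1, g2, g3⟩ := (h4 _ (l.get_mem j)).2
    exact ⟨o, g1, cs_of g2, g3 _ (l.get_mem i)⟩

def ext : ℕ → List V → V → Bool
  | 0, _, _ => true
  | k + 1, s, u => (List.finRange 10).any fun v => G.Adj u v && !s.contains v && ext k (u :: s) v

lemma ext_of {u v : V} (p : G.Walk u v) : ∀ s : List V, p.support.Nodup →
    (∀ x ∈ p.support, x ∉ s) → ext p.length s u = true := by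
  induction p with
  | nil => intro s _ _; rfl
  | @cons a b c h q ih =>
    intro s h1 h2
    rw [Walk.support_cons, List.nodup_cons] at h1
    simp only [Walk.length_cons, ext, List.any_eq_true, Bool.and_eq_true, decide_eq_true_eq,
      Bool.not_eq_true', List.contains_eq_mem, decide_eq_false_iff_not]
    have h3 : ∀ x ∈ q.support, x ∉ s := fun x hx => h2 x (by simp [hx])
    refine ⟨b, List.mem_finRange b, ⟨h, h3 b q.start_mem_support⟩, ih _ h1.2 fun x hx => ?_⟩
    rw [List.mem_cons, not_or]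
    exact ⟨fun e => h1.1 (e ▸ hx), h3 x hx⟩

theorem result : ∃ (m : ℕ) (G : SimpleGraph (Fin m)), G.Connected ∧ ¬ Traceable G ∧
    ∀ n : ℕ, 1 ≤ n → ∀ w : Fin m → ℝ, (∀ v, 0 ≤ w v) →
      ∃ A : Fin n → Finset (Fin m), GoodAlloc G w A := by
  have hu : Cn univ := by
    have := ct 1023 (by decide) (by decide +kernel)
    rwa [show S 1023 = univ by decide] at this
  refine ⟨10, G, ?_, ?_, fun n hn w hw => ?_⟩
  · have : (G.induce ((univ : Finset V) : Set V)).Connected := @Connected.mk _ _ hu ⟨⟨0, by simp⟩⟩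
    rw [coe_univ] at this
    exact (Iso.connected_iff (induceUnivIso G)).1 this
  · rintro ⟨u, v, p, hp⟩
    have h1 := ext_of p [] hp.isPath.support_nodup (by simp)
    rw [hp.length_eq] at h1
    have : ∀ u : V, ext 9 [] u = false := by decide +kernel
    exact absurd h1 (by simp [this u])
  · by_cases h : 10 ≤ n
    · refine ⟨fun i => univ.filter fun v => v.1 = i.1, fun i j hij => ?_,
        fun v => ⟨⟨v.1, by omega⟩, by simp⟩, fun i => ?_, fun i j => ?_⟩
      · exact disjoint_left.2 fun v h1 h2 => hij (Fin.ext (by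
          rw [mem_filter] at h1 h2; exact h1.2.symm.trans h2.2))
      · by_cases hi : i.1 < 10
        · have : (univ.filter fun v : V => v.1 = i.1) = {⟨i.1, hi⟩} := by
            ext v; simp [Fin.ext_iff]
          dsimp only
          rw [this]
          exact cs_of (by rw [Cn, coe_singleton]; exact sing _)
        · exact Or.inl (filter_eq_empty_iff.2 fun v _ => by omega)
      · have h0 : 0 ≤ ∑ v ∈ univ.filter fun v : V => v.1 = i.1, w v := sum_nonneg fun v _ => hw v
        by_cases hj : j.1 < 10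
        · have : (univ.filter fun v : V => v.1 = j.1) = {⟨j.1, hj⟩} := by
            ext v; simp [Fin.ext_iff]
          dsimp only
          rw [this]
          exact Or.inr ⟨_, mem_singleton_self _, Or.inl (by simp), by simpa using h0⟩
        · have : (univ.filter fun v : V => v.1 = j.1) = ∅ :=
            filter_eq_empty_iff.2 fun v _ => by omega
          dsimp only
          rw [this]
          exact Or.inl (by simpa using h0)
    · push Not at h
      interval_cases n
      · exact ⟨fun _ => univ, fun i j hij => absurd (Subsingleton.elim i j) hij,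
          fun v => ⟨0, mem_univ v⟩, fun _ => cs_of hu, fun _ _ => Or.inl le_rfl⟩
      · exact of_ex (ex_all top2 w hw)
      · exact of_ex (ex_all top3 w hw)
      · exact of_ex (ex_all top4 w hw)
      · exact of_ex (ex_all top5 w hw)
      · exact of_ex (ex_all top6 w hw)
      · exact of_ex (ex_all top7 w hw)
      · exact of_ex (ex_all top8 w hw)
      · exact of_ex (ex_all top9 w hw)

end Pool.Agent.Results.MP_7d34d8_co.Q2
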